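import Pool.Agent.helper41.CL.Spec

set_option autoImplicit false

namespace Pool.Agent.helper41.CL

open Finset

theorem NM (h1 : SD_stmt) (h2 : DC_stmt) : NM_stmt := by
  intro α _ V E hG hV hC
  by_contra hcon
  have hdeg : ∀ p, #(inc E p) ≤ 1 := by
    intro p
    by_contra hp
    exact hcon ⟨p, by omega⟩
  have hsum := h1 α V E hG
  obtain ⟨y, hyV, hy⟩ : ∃ y ∈ V, #(inc E y) = 0 := by
    by_contra hno
    have h3 : ∑ x ∈ V, 1 ≤ ∑ x ∈ V, #(inc E x) := by
      refine Finset.sum_le_sum fun x hx => ?_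
      by_contra hx1
      exact hno ⟨x, hx, by omega⟩
    rw [hsum, Finset.sum_const, smul_eq_mul, mul_one] at h3
    omega
  obtain ⟨C, hCc, hyC⟩ := hC y hyV
  unfold cov at hCc
  rw [Finset.mem_filter, Finset.mem_powersetCard] at hCc
  obtain ⟨⟨hCV, hCcard⟩, hCcov⟩ := hCc
  have hD : ∀ e ∈ E, ∃ x ∈ e, x ∈ C.erase y := by
    intro e he
    obtain ⟨x, hxe, hxC⟩ := hCcov e he
    refine ⟨x, hxe, Finset.mem_erase.2 ⟨?_, hxC⟩⟩
    intro hxy
    subst hxy
    have h3 : e ∈ inc E x := by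
      unfold inc
      exact Finset.mem_filter.2 ⟨he, hxe⟩
    rw [Finset.card_eq_zero] at hy
    rw [hy] at h3
    exact absurd h3 (Finset.notMem_empty _)
  have h3 := h2 α V E (C.erase y) hG hD
  have h4 : ∑ x ∈ C.erase y, #(inc E x) ≤ ∑ x ∈ C.erase y, 1 := Finset.sum_le_sum fun x _ => hdeg x
  rw [Finset.sum_const, smul_eq_mul, mul_one, Finset.card_erase_of_mem hyC, hCcard] at h4
  have h5 : 0 < #C := Finset.card_pos.2 ⟨y, hyC⟩
  omega

end Pool.Agent.helper41.CL
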