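import Pool.Agent.helper47.CL.SpecD

set_option autoImplicit false

namespace Pool.Agent.helper41.CL

open Finset

private lemma ZW_le {α : Type} [DecidableEq α] (E T : Finset (Finset α)) (S : Finset α) (hT : T ⊆ E)
    (h : ∀ e ∈ T, ¬ Disjoint e S) : #(av E S) + #T ≤ #E := by
  have h1 : Disjoint (av E S) T := by
    rw [Finset.disjoint_left]
    intro e he heT
    unfold av at he
    exact h e heT (Finset.mem_filter.1 he).2
  rw [← Finset.card_union_of_disjoint h1]
  refine Finset.card_le_card (Finset.union_subset ?_ hT)
  unfold av
  exact Finset.filter_subset _ _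

private lemma ZW_gr {α : Type} [DecidableEq α] (V : Finset α) (E : Finset (Finset α)) (S : Finset α) (hG : Gr V E) :
    Gr (V \ S) (av E S) := by
  intro e he
  unfold av at he
  have h1 := Finset.mem_filter.1 he
  refine ⟨?_, (hG e h1.1).2⟩
  intro x hx
  exact Finset.mem_sdiff.2 ⟨(hG e h1.1).1 hx, Finset.disjoint_left.1 h1.2 hx⟩

private lemma ZW_ex {α : Type} [DecidableEq α] (E : Finset (Finset α)) (a : α) (f : Finset α) (h : 2 ≤ #(inc E a)) :
    ∃ e ∈ E, a ∈ e ∧ e ≠ f := by
  obtain ⟨e, he, hef⟩ := Finset.exists_mem_ne (show 1 < #(inc E a) by omega) f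
  unfold inc at he
  have h1 := Finset.mem_filter.1 he
  exact ⟨e, h1.1, h1.2, hef⟩

private lemma ZW_pair {α : Type} [DecidableEq α] {e : Finset α} {a b : α} (hab : a ≠ b) (ha : a ∈ e) (hb : b ∈ e)
    (hc : e.card = 2) : e = {a, b} := by
  symm
  apply Finset.eq_of_subset_of_card_le
  · intro x hx
    rcases Finset.mem_insert.1 hx with h | h
    · rw [h]
      exact ha
    · rw [Finset.mem_singleton.1 h]
      exact hb
  · rw [hc, Finset.card_pair hab]

theorem ZW (h1 : ZD_stmt) : ZW_stmt := by
  intro α _ V E p a b hG hT
  obtain ⟨hab, hpa, hpb, hEa, hEb, hall⟩ := hT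
  have hpV : p ∈ V := (hG _ hEa).1 (Finset.mem_insert_self _ _)
  have haV : a ∈ V := (hG _ hEa).1 (by simp)
  have hbV : b ∈ V := (hG _ hEb).1 (by simp)
  have hSV : ({p, a, b} : Finset α) ⊆ V := by
    intro x hx
    simp only [Finset.mem_insert, Finset.mem_singleton] at hx
    rcases hx with h | h | h <;> rw [h] <;> assumption
  have hSc : ({p, a, b} : Finset α).card = 3 := by
    rw [Finset.card_insert_of_notMem, Finset.card_pair hab]
    simp [hpa, hpb]
  have hne : ({p, a} : Finset α) ≠ {p, b} := by
    intro h
    have h2 : a ∈ ({p, b} : Finset α) := by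
      rw [← h]
      simp
    simp only [Finset.mem_insert, Finset.mem_singleton] at h2
    rcases h2 with h2 | h2
    · exact hpa h2.symm
    · exact hab h2
  -- a member with `a` other than `{p, a}` and a member with `b` other than `{p, b}`
  have hea : ∀ e ∈ E, a ∈ e → e ≠ {p, a} → p ∉ e := by
    intro e he hae hne' hpe
    rcases hall e he hpe with h | h
    · exact hne' h
    · rw [h] at hae
      simp only [Finset.mem_insert, Finset.mem_singleton] at hae
      rcases hae with h2 | h2
      · exact hpa h2.symm
      · exact hab h2
  have heb : ∀ e ∈ E, b ∈ e → e ≠ {p, b} → p ∉ e := by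
    intro e he hbe hne' hpe
    rcases hall e he hpe with h | h
    · rw [h] at hbe
      simp only [Finset.mem_insert, Finset.mem_singleton] at hbe
      rcases hbe with h2 | h2
      · exact hpb h2.symm
      · exact hab h2.symm
    · exact hne' h
  have hnd : ∀ (e : Finset α) (x : α), x ∈ e → x ∈ ({p, a, b} : Finset α) → ¬ Disjoint e {p, a, b} := by
    intro e x hx hxS hd
    exact Finset.disjoint_left.1 hd hx hxS
  have h3 : ∀ e ∈ E, p ∉ e → (a ∈ e ∨ b ∈ e) → #(av E {p, a, b}) + 3 ≤ #E := by
    intro e he hpe hor
    have hc : #({{p, a}, {p, b}, e} : Finset (Finset α)) = 3 := by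
      rw [Finset.card_insert_of_notMem, Finset.card_pair]
      · intro h
        apply hpe
        rw [← h]
        simp
      · simp only [Finset.mem_insert, Finset.mem_singleton, not_or]
        refine ⟨hne, ?_⟩
        intro h
        apply hpe
        rw [← h]
        simp
    rw [← hc]
    refine ZW_le E _ _ ?_ ?_
    · intro f hf
      simp only [Finset.mem_insert, Finset.mem_singleton] at hf
      rcases hf with h | h | h <;> rw [h] <;> assumption
    · intro f hf
      simp only [Finset.mem_insert, Finset.mem_singleton] at hf
      rcases hf with h | h | h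
      · exact hnd f p (by rw [h]; simp) (by simp)
      · exact hnd f p (by rw [h]; simp) (by simp)
      · rcases hor with h2 | h2
        · exact hnd f a (by rw [h]; exact h2) (by simp)
        · exact hnd f b (by rw [h]; exact h2) (by simp)
  refine ⟨ZW_gr V E _ hG, ?_, ?_, ?_, ?_, ?_, ?_, ?_⟩
  · have h := ZW_gr V E {p} hG
    rwa [← Finset.erase_eq] at h
  · have h := Finset.card_sdiff_of_subset hSV
    have h2 := Finset.card_le_card hSV
    rw [hSc] at h h2
    omega
  · exact Finset.card_erase_add_one hpV
  · have h2 : E = av E {p} ∪ {{p, a}, {p, b}} := by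
      ext e
      unfold av
      simp only [Finset.mem_union, Finset.mem_filter, Finset.mem_insert, Finset.mem_singleton, Finset.disjoint_singleton_right]
      constructor
      · intro he
        by_cases hpe : p ∈ e
        · exact Or.inr (hall e he hpe)
        · exact Or.inl ⟨he, hpe⟩
      · rintro (h | h | h)
        · exact h.1
        · rw [h]
          exact hEa
        · rw [h]
          exact hEb
    have h4 : Disjoint (av E {p}) ({{p, a}, {p, b}} : Finset (Finset α)) := by
      rw [Finset.disjoint_left]
      intro e he hf
      unfold av at he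
      have h5 := (Finset.mem_filter.1 he).2
      rw [Finset.disjoint_singleton_right] at h5
      simp only [Finset.mem_insert, Finset.mem_singleton] at hf
      rcases hf with h | h
      · exact h5 (by rw [h]; simp)
      · exact h5 (by rw [h]; simp)
    have h6 := congrArg Finset.card h2
    rw [Finset.card_union_of_disjoint h4, Finset.card_pair hne] at h6
    exact h6.symm
  · rintro (h | h)
    · obtain ⟨e, he, hae, hne'⟩ := ZW_ex E a {p, a} h
      exact h3 e he (hea e he hae hne') (Or.inl hae)
    · obtain ⟨e, he, hbe, hne'⟩ := ZW_ex E b {p, b} h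
      exact h3 e he (heb e he hbe hne') (Or.inr hbe)
  · intro ha2 hb2 habE
    obtain ⟨e, he, hae, hne1⟩ := ZW_ex E a {p, a} ha2
    obtain ⟨f, hf, hbf, hne2⟩ := ZW_ex E b {p, b} hb2
    have hpe := hea e he hae hne1
    have hpf := heb f hf hbf hne2
    have hef : e ≠ f := by
      intro h
      apply habE
      rw [← h] at hbf
      rw [← ZW_pair hab hae hbf (hG e he).2]
      exact he
    have hc : #({{p, a}, {p, b}, e, f} : Finset (Finset α)) = 4 := by
      rw [Finset.card_insert_of_notMem, Finset.card_insert_of_notMem, Finset.card_pair hef]
      · simp only [Finset.mem_insert, Finset.mem_singleton, not_or]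
        refine ⟨?_, ?_⟩
        · intro h
          apply hpe
          rw [← h]
          simp
        · intro h
          apply hpf
          rw [← h]
          simp
      · simp only [Finset.mem_insert, Finset.mem_singleton, not_or]
        refine ⟨hne, ?_, ?_⟩
        · intro h
          apply hpe
          rw [← h]
          simp
        · intro h
          apply hpf
          rw [← h]
          simp
    rw [← hc]
    refine ZW_le E _ _ ?_ ?_
    · intro g hg
      simp only [Finset.mem_insert, Finset.mem_singleton] at hg
      rcases hg with h | h | h | h <;> rw [h] <;> assumption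
    · intro g hg
      simp only [Finset.mem_insert, Finset.mem_singleton] at hg
      rcases hg with h | h | h | h
      · exact hnd g p (by rw [h]; simp) (by simp)
      · exact hnd g p (by rw [h]; simp) (by simp)
      · exact hnd g a (by rw [h]; exact hae) (by simp)
      · exact hnd g b (by rw [h]; exact hbf) (by simp)
  · intro k
    have h := h1 α V E p {p, a, b} k hG (by simp) hSV (by
      intro e he hpe
      rcases hall e he hpe with h | h
      · rw [h]
        intro x hx
        simp only [Finset.mem_insert, Finset.mem_singleton] at hx ⊢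
        rcases hx with h2 | h2
        · exact Or.inl h2
        · exact Or.inr (Or.inl h2)
      · rw [h]
        intro x hx
        simp only [Finset.mem_insert, Finset.mem_singleton] at hx ⊢
        rcases hx with h2 | h2
        · exact Or.inl h2
        · exact Or.inr (Or.inr h2))
    rw [add_comm] at h
    exact h

end Pool.Agent.helper41.CL
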